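import Pool.Agent.Helper14.TK.StA
import Pool.Agent.Helper78.WK3.M_Ta3

/-!
# Project T3K, part A (MP_3c9520_nt, MP_1d384c_nt): module WDT, the interface
-/

set_option autoImplicit false

namespace Pool.Agent.Helper11.TA

open Pool.Agent.Helper14.CV Pool.Agent.Helper14.W3 Pool.Agent.Helper78.W3
open Pool.Agent.Helper14.T3 Pool.Agent.Helper14.TK
open Pool.Agent.Helper14.TT (eXb)
open Pool.Agent.Helper28.WK (SymP Tw Ok UIp)
open Pool.Agent.Helper76.TG (Wzt TAt)
open Pool.Agent.Helper78.WK3 (symP_three)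

private theorem eXb_add {R : Type} [AddCommGroup R] (D : ℕ) (m : ℤ) (G H : ℤ → ℤ → R) :
    eXb D m (G + H) = eXb D m G + eXb D m H := by
  unfold eXb
  rw [← Finset.sum_add_distrib]
  refine Finset.sum_congr rfl fun a _ => ?_
  rw [← smul_add]
  congr 1
  simp only [Pi.add_apply]
  abel

private theorem eXb_neg {R : Type} [AddCommGroup R] (D : ℕ) (m : ℤ) (G : ℤ → ℤ → R) :
    eXb D m (-G) = -eXb D m G := by
  unfold eXb
  rw [← Finset.sum_neg_distrib]
  refine Finset.sum_congr rfl fun a _ => ?_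
  rw [← smul_neg]
  congr 1
  simp only [Pi.neg_apply]
  abel

private theorem Tw_append {R : Type} [AddCommGroup R] (m : ℤ) (l₁ l₂ : List ℕ)
    (G : ℤ → ℤ → R) : Tw m (l₁ ++ l₂) G = Tw m l₁ (Tw m l₂ G) := by
  induction l₁ with
  | nil => rfl
  | cons l ls ih => simp only [List.cons_append, Tw, ih]

private theorem Tw_add {R : Type} [AddCommGroup R] (m : ℤ) (ls : List ℕ) (G H : ℤ → ℤ → R) :
    Tw m ls (G + H) = Tw m ls G + Tw m ls H := by
  induction ls with
  | nil => rfl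
  | cons l ls ih => simp only [Tw, ih, Tl_add]

private theorem Tw_neg {R : Type} [AddCommGroup R] (m : ℤ) (ls : List ℕ) (G : ℤ → ℤ → R) :
    Tw m ls (-G) = -Tw m ls G := by
  induction ls with
  | nil => rfl
  | cons l ls ih => simp only [Tw, ih, Tl_neg]

private theorem Wd_Tl {R : Type} [AddCommGroup R] {D : ℕ} {m : ℤ} {G : ℤ → ℤ → R}
    (h : Wzt 3 D m G) {l : ℕ} (hl : l.Prime) (hl3 : l ≠ 3) : Wzt 3 D m (Tl l m G) := by
  intro ls hls
  have h1 := h (ls ++ [l]) (by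
    intro l' hl'
    rcases List.mem_append.1 hl' with h1 | h1
    · exact hls l' h1
    · rw [List.mem_singleton.1 h1]
      exact ⟨hl, hl3⟩)
  rw [Tw_append] at h1
  exact h1

private theorem Wd_add {R : Type} [AddCommGroup R] {D : ℕ} {m : ℤ} {G H : ℤ → ℤ → R}
    (h : Wzt 3 D m G) (h' : Wzt 3 D m H) : Wzt 3 D m (G + H) := by
  intro ls hls
  rw [Tw_add, eXb_add, h ls hls, h' ls hls, add_zero]

private theorem Wd_neg {R : Type} [AddCommGroup R] {D : ℕ} {m : ℤ} {G : ℤ → ℤ → R}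
    (h : Wzt 3 D m G) : Wzt 3 D m (-G) := by
  intro ls hls
  rw [Tw_neg, eXb_neg, h ls hls, neg_zero]

private theorem Wd_Bo {R : Type} [AddCommGroup R] {D : ℕ} {m : ℤ} {G : ℤ → ℤ → R}
    (h : Wzt 3 D m G) : Wzt 3 D m (Bo m G) := by
  have h2 := Wd_Tl (Wd_Tl h (l := 2) (by norm_num) (by norm_num)) (l := 2) (by norm_num)
    (by norm_num)
  have h7 := Wd_Tl h (l := 7) (by norm_num) (by norm_num)
  have h3 := Wd_add (Wd_add h7 h) (Wd_neg h2)
  unfold Bo
  rw [sub_eq_add_neg]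
  exact h3

private theorem Wd_evTb {R : Type} [AddCommGroup R] {D : ℕ} {m : ℤ} {G : ℤ → ℤ → R}
    (h : Wzt 3 D m G) (i j : ℕ) : evTb D m G i j = 0 := by
  have h3 : Wzt 3 D m ((Tl 2 m)^[i] G) := by
    induction i with
    | zero => exact h
    | succ i ih => rw [Function.iterate_succ_apply']; exact Wd_Tl ih (by norm_num) (by norm_num)
  have h4 : Wzt 3 D m ((Bo m)^[j] ((Tl 2 m)^[i] G)) := by
    induction j with
    | zero => exact h3
    | succ j ih => rw [Function.iterate_succ_apply']; exact Wd_Bo ih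
  exact h4 [] (by intro l hl; simp at hl)

theorem hWDT : StWDT := by
  intro hT D s dd hf m M g hm hg hW hs hev
  have hc3 : jacobiSym ((3 : ℕ) : ℤ) D = -1 := by simpa only [Nat.cast_ofNat] using hf.c3
  have hcm := hf.cm
  rw [hc3, hcm] at hW
  rw [hcm] at hs
  have hW' : EqC (act 0 (-1) (3 ^ m) 0 g) (-(kw s m • g)) := by
    unfold kw
    simpa only [Nat.cast_ofNat] using hW
  obtain ⟨ψ, h1, h2⟩ := hT D s dd hf m M g hm ((symP_three 0 m g).1 hg) hW' hs
    (fun i j => Wd_evTb hev i j)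
  refine ⟨ψ, (symP_three 0 (m - 1) ψ).2 h1, ?_⟩
  rw [hc3]
  have e : ((-1 : ℤ) • act ((3 : ℕ) : ℤ) 0 0 1 ψ - ψ) = -act 3 0 0 1 ψ - ψ := by
    rw [neg_smul, one_smul]
    simp only [Nat.cast_ofNat]
  rw [e]
  exact h2

end Pool.Agent.Helper11.TA
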